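import Pool.Agent.Run7.h312.AB.Num

/-!
# Idempotent complete categories all of whose morphisms are regular are abelian
-/

set_option autoImplicit false
set_option linter.unusedSectionVars false

open CategoryTheory CategoryTheory.Limits

universe v u

namespace Pool.Agent.Run7.h312.AB

variable {𝒞 : Type u} [Category.{v} 𝒞] [Preadditive 𝒞] [IsIdempotentComplete 𝒞]

lemma hasKernel_of_regular {M N : 𝒞} (f : M ⟶ N) (g : N ⟶ M) (h : f ≫ g ≫ f = f) : HasKernel f := by
  have he : (𝟙 M - f ≫ g) ≫ (𝟙 M - f ≫ g) = 𝟙 M - f ≫ g := by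
    simp only [Preadditive.sub_comp, Preadditive.comp_sub, Category.id_comp, Category.comp_id,
      Category.assoc]
    have : f ≫ g ≫ f ≫ g = f ≫ g := by
      rw [← Category.assoc, ← Category.assoc, Category.assoc f g f, h]
    rw [this]
    abel
  obtain ⟨Y, i, r, h1, h2⟩ := IsIdempotentComplete.idempotents_split M _ he
  have hif : i ≫ f = 0 := by
    have : i ≫ f = i ≫ (𝟙 M - f ≫ g) ≫ f := by
      rw [← h2, Category.assoc, reassoc_of% h1]
    rw [this, Preadditive.sub_comp, Category.id_comp, Category.assoc, h, sub_self, comp_zero]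
  refine ⟨⟨KernelFork.ofι i hif, KernelFork.IsLimit.ofι i hif (fun k hk => k ≫ r) ?_ ?_⟩⟩
  · intro W k hk
    rw [Category.assoc, h2, Preadditive.comp_sub, Category.comp_id, reassoc_of% hk, zero_comp,
      sub_zero]
  · intro W k hk m hm
    rw [← hm, Category.assoc, h1, Category.comp_id]

lemma hasCokernel_of_regular {M N : 𝒞} (f : M ⟶ N) (g : N ⟶ M) (h : f ≫ g ≫ f = f) :
    HasCokernel f := by
  have he : (𝟙 N - g ≫ f) ≫ (𝟙 N - g ≫ f) = 𝟙 N - g ≫ f := by
    simp only [Preadditive.sub_comp, Preadditive.comp_sub, Category.id_comp, Category.comp_id,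
      Category.assoc]
    rw [h]
    abel
  obtain ⟨Y, i, r, h1, h2⟩ := IsIdempotentComplete.idempotents_split N _ he
  have hif : f ≫ r = 0 := by
    have : f ≫ r = (f ≫ (𝟙 N - g ≫ f)) ≫ r := by
      rw [← h2, Category.assoc, Category.assoc, h1, Category.comp_id]
    rw [this, Preadditive.comp_sub, Category.comp_id, h, sub_self, zero_comp]
  refine ⟨⟨CokernelCofork.ofπ r hif, CokernelCofork.IsColimit.ofπ r hif (fun k hk => i ≫ k) ?_ ?_⟩⟩
  · intro W k hk
    rw [← Category.assoc, h2, Preadditive.sub_comp, Category.id_comp, Category.assoc, hk, comp_zero,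
      sub_zero]
  · intro W k hk m hm
    rw [← hm, ← Category.assoc, h1, Category.id_comp]

lemma isAbelian_of_regular [HasFiniteBiproducts 𝒞]
    (h : ∀ (M N : 𝒞) (f : M ⟶ N), ∃ g : N ⟶ M, f ≫ g ≫ f = f) : IsAbelian 𝒞 := by
  have hk : HasKernels 𝒞 := ⟨fun {M N} f => by
    obtain ⟨g, hg⟩ := h M N f
    exact hasKernel_of_regular f g hg⟩
  have hc : HasCokernels 𝒞 := ⟨fun {M N} f => by
    obtain ⟨g, hg⟩ := h M N f
    exact hasCokernel_of_regular f g hg⟩
  have hfp : HasFiniteProducts 𝒞 := inferInstance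
  have hM : IsNormalMonoCategory 𝒞 := ⟨fun {M N} f hf => by
    obtain ⟨g, hg⟩ := h M N f
    have h1 : f ≫ g = 𝟙 M := by
      rw [← cancel_mono f, Category.assoc, hg, Category.id_comp]
    have h2 : f ≫ (𝟙 N - g ≫ f) = 0 := by
      rw [Preadditive.comp_sub, Category.comp_id, hg, sub_self]
    refine ⟨⟨N, 𝟙 N - g ≫ f, h2, KernelFork.IsLimit.ofι f h2 (fun k hk => k ≫ g) ?_ ?_⟩⟩
    · intro W k hk
      rw [Preadditive.comp_sub, Category.comp_id, sub_eq_zero] at hk
      rw [Category.assoc, ← hk]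
    · intro W k hk m hm
      rw [← hm, Category.assoc, h1, Category.comp_id]⟩
  have hE : IsNormalEpiCategory 𝒞 := ⟨fun {M N} f hf => by
    obtain ⟨g, hg⟩ := h M N f
    have h1 : g ≫ f = 𝟙 N := by
      rw [← cancel_epi f, hg, Category.comp_id]
    have h2 : (𝟙 M - f ≫ g) ≫ f = 0 := by
      rw [Preadditive.sub_comp, Category.id_comp, Category.assoc, hg, sub_self]
    refine ⟨⟨M, 𝟙 M - f ≫ g, h2, CokernelCofork.IsColimit.ofπ f h2 (fun k hk => g ≫ k) ?_ ?_⟩⟩
    · intro W k hk
      rw [Preadditive.sub_comp, Category.id_comp, sub_eq_zero] at hk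
      rw [← Category.assoc, ← hk]
    · intro W k hk m hm
      rw [← hm, ← Category.assoc, h1, Category.id_comp]⟩
  let _ : Abelian 𝒞 := { }
  exact ⟨hk, hc, fun M N f => inferInstance⟩

end Pool.Agent.Run7.h312.AB
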