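import Pool.Agent.Run7.h312.AB.Reg

/-!
# Abelian rigid tensor categories: smash-nilpotent morphisms, lifting of cycles, the conjecture of
Tate and phantoms
-/

set_option autoImplicit false
set_option linter.unusedSectionVars false

open CategoryTheory CategoryTheory.Limits MonoidalCategory

universe v u

namespace Pool.Agent.Run7.h312.AB

variable {𝒞 : Type u} [Category.{v} 𝒞]

section monoepi

variable [MonoidalCategory 𝒞] [RigidCategory 𝒞]

lemma mono_left (T : 𝒞) {M N : 𝒞} (i : M ⟶ N) [Mono i] : Mono (T ◁ i) := by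
  have := (tensorLeft T).preservesMonomorphisms_of_adjunction (tensorLeftAdjunction T (Tᘁ : 𝒞))
  exact (tensorLeft T).map_mono i

lemma epi_left (T : 𝒞) {M N : 𝒞} (p : M ⟶ N) [Epi p] : Epi (T ◁ p) := by
  have := (tensorLeft T).preservesEpimorphisms_of_adjunction (tensorLeftAdjunction (ᘁT : 𝒞) T)
  exact (tensorLeft T).map_epi p

lemma mono_right (T : 𝒞) {M N : 𝒞} (i : M ⟶ N) [Mono i] : Mono (i ▷ T) := by
  have := (tensorRight T).preservesMonomorphisms_of_adjunction (tensorRightAdjunction (ᘁT : 𝒞) T)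
  exact (tensorRight T).map_mono i

lemma epi_right (T : 𝒞) {M N : 𝒞} (p : M ⟶ N) [Epi p] : Epi (p ▷ T) := by
  have := (tensorRight T).preservesEpimorphisms_of_adjunction (tensorRightAdjunction T (Tᘁ : 𝒞))
  exact (tensorRight T).map_epi p

end monoepi

section zero

variable [Preadditive 𝒞] [MonoidalCategory 𝒞] [MonoidalPreadditive 𝒞]

lemma isZero_right {Z : 𝒞} (h : IsZero Z) (W : 𝒞) : IsZero (Z ⊗ W) := by
  rw [IsZero.iff_id_eq_zero, ← id_whiskerRight, (IsZero.iff_id_eq_zero Z).1 h]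
  simp

lemma isZero_left {Z : 𝒞} (h : IsZero Z) (W : 𝒞) : IsZero (W ⊗ Z) := by
  rw [IsZero.iff_id_eq_zero, ← whiskerLeft_id, (IsZero.iff_id_eq_zero Z).1 h]
  simp

/-- If `(J ⊗ I) ⊗ I` is zero then so is `J ⊗ I`. -/
lemma isZero_cancel [BraidedCategory 𝒞] [RigidCategory 𝒞] {I J : 𝒞} (h : IsZero ((J ⊗ I) ⊗ I)) :
    IsZero (J ⊗ I) := by
  have h1 : IsZero ((I ⊗ (Iᘁ : 𝒞)) ⊗ I |> fun X => J ⊗ X) := by
    have e : J ⊗ ((I ⊗ (Iᘁ : 𝒞)) ⊗ I) ≅ ((J ⊗ I) ⊗ I) ⊗ (Iᘁ : 𝒞) :=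
      whiskerLeftIso J (α_ I (Iᘁ : 𝒞) I) ≪≫ whiskerLeftIso J (whiskerLeftIso I (β_ (Iᘁ : 𝒞) I)) ≪≫
        (α_ J I (I ⊗ (Iᘁ : 𝒞))).symm ≪≫ (α_ (J ⊗ I) I (Iᘁ : 𝒞)).symm
    exact (isZero_right h _).of_iso e
  have h2 : 𝟙 (J ⊗ I) = J ◁ ((λ_ I).inv ≫ η_ I (Iᘁ : 𝒞) ▷ I) ≫
      J ◁ ((α_ I (Iᘁ : 𝒞) I).hom ≫ I ◁ ε_ I (Iᘁ : 𝒞) ≫ (ρ_ I).hom) := by
    rw [← whiskerLeft_comp, ← whiskerLeft_id]
    congr 1
    have := ExactPairing.evaluation_coevaluation I (Iᘁ : 𝒞)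
    simp only [Category.assoc]
    rw [reassoc_of% this]
    simp
  rw [IsZero.iff_id_eq_zero, h2, h1.eq_zero_of_tgt (J ◁ ((λ_ I).inv ≫ η_ I (Iᘁ : 𝒞) ▷ I)), zero_comp]

lemma isZero_of_pw [BraidedCategory 𝒞] [RigidCategory 𝒞] {I : 𝒞} :
    ∀ n : ℕ, IsZero (pw I (n + 1)) → IsZero I
  | 0, h => h.of_iso (λ_ I).symm
  | n + 1, h => isZero_of_pw n (isZero_cancel h)

end zero

section smash

variable [MonoidalCategory 𝒞] [RigidCategory 𝒞]

lemma pwHom_mono {M N : 𝒞} (i : M ⟶ N) [Mono i] : ∀ n : ℕ, Mono (pwHom i n)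
  | 0 => by
    show Mono (𝟙 (𝟙_ 𝒞))
    infer_instance
  | n + 1 => by
    have := pwHom_mono i n
    have h1 := mono_right M (pwHom i n)
    have h2 := mono_left (pw N n) i
    show Mono (pwHom i n ⊗ₘ i)
    rw [MonoidalCategory.tensorHom_def]
    exact mono_comp _ _

lemma pwHom_epi {M N : 𝒞} (i : M ⟶ N) [Epi i] : ∀ n : ℕ, Epi (pwHom i n)
  | 0 => by
    show Epi (𝟙 (𝟙_ 𝒞))
    infer_instance
  | n + 1 => by
    have := pwHom_epi i n
    have h1 := epi_right M (pwHom i n)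
    have h2 := epi_left (pw N n) i
    show Epi (pwHom i n ⊗ₘ i)
    rw [MonoidalCategory.tensorHom_def]
    exact epi_comp _ _

lemma pwHom_comp {L M N : 𝒞} (f : L ⟶ M) (g : M ⟶ N) :
    ∀ n : ℕ, pwHom (f ≫ g) n = pwHom f n ≫ pwHom g n
  | 0 => (Category.id_comp (𝟙 (𝟙_ 𝒞))).symm
  | n + 1 => by
    show pwHom (f ≫ g) n ⊗ₘ (f ≫ g) = (pwHom f n ⊗ₘ f) ≫ (pwHom g n ⊗ₘ g)
    rw [pwHom_comp f g n, MonoidalCategory.tensorHom_comp_tensorHom]

end smash

section abel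

variable [Abelian 𝒞] [MonoidalCategory 𝒞] [MonoidalPreadditive 𝒞] [RigidCategory 𝒞]

/-- **In an abelian rigid tensor category smash-nilpotent morphisms are zero.** -/
theorem smash_zero [BraidedCategory 𝒞] {M N : 𝒞} {f : M ⟶ N} (h : SmashNilpotent f) : f = 0 := by
  obtain ⟨n, hn, h0⟩ := h
  obtain ⟨n, rfl⟩ : ∃ m, n = m + 1 := ⟨n - 1, by omega⟩
  have hf : Abelian.factorThruImage f ≫ Abelian.image.ι f = f := Abelian.image.fac f
  have h1 : pwHom (Abelian.factorThruImage f) (n + 1) ≫ pwHom (Abelian.image.ι f) (n + 1) = 0 := by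
    rw [← pwHom_comp, hf, h0]
  have := pwHom_mono (Abelian.image.ι f) (n + 1)
  have := pwHom_epi (Abelian.factorThruImage f) (n + 1)
  have h2 : pwHom (Abelian.factorThruImage f) (n + 1) = 0 := by
    rw [← cancel_mono (pwHom (Abelian.image.ι f) (n + 1)), h1, zero_comp]
  have h3 : IsZero (pw (Abelian.image f) (n + 1)) := by
    rw [IsZero.iff_id_eq_zero, ← cancel_epi (pwHom (Abelian.factorThruImage f) (n + 1)), h2]
    simp
  have h4 := isZero_of_pw n h3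
  rw [h4.eq_zero_of_tgt (Abelian.factorThruImage f), zero_comp] at hf
  exact hf.symm

lemma lift_of_epi_split (h : CyclesLift 𝒞) {M N : 𝒞} (p : M ⟶ N) [Epi p] : ∃ s : N ⟶ M, s ≫ p = 𝟙 N := by
  have := epi_left (ᘁN : 𝒞) p
  obtain ⟨w, hw⟩ := h _ _ ((ᘁN : 𝒞) ◁ p) this (η_ (ᘁN : 𝒞) N)
  have h1 := tensorLeftHomEquiv_naturality (Y := (ᘁN : 𝒞)) (Y' := N)
    ((tensorLeftHomEquiv (𝟙_ 𝒞) (ᘁN : 𝒞) N M).symm w) p
  rw [Equiv.apply_symm_apply, hw] at h1
  have h2 := tensorLeftHomEquiv_symm_coevaluation_comp_whiskerLeft (Y := (ᘁN : 𝒞)) (Y' := N) (𝟙 N)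
  rw [whiskerLeft_id, Category.comp_id, Category.comp_id, ← h1, Equiv.symm_apply_apply] at h2
  refine ⟨(ρ_ N).inv ≫ (tensorLeftHomEquiv (𝟙_ 𝒞) (ᘁN : 𝒞) N M).symm w, ?_⟩
  rw [Category.assoc, h2, Iso.inv_hom_id]

lemma monosSplit_of_lift (h : CyclesLift 𝒞) : MonosSplit 𝒞 := by
  intro M N i hi
  obtain ⟨s, hs⟩ := lift_of_epi_split h (cokernel.π i)
  have h1 : (𝟙 N - cokernel.π i ≫ s) ≫ cokernel.π i = 0 := by
    rw [Preadditive.sub_comp, Category.id_comp, Category.assoc, hs, Category.comp_id, sub_self]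
  obtain ⟨r, hr⟩ : ∃ r : N ⟶ M, r ≫ i = 𝟙 N - cokernel.π i ≫ s :=
    ⟨Abelian.monoLift i _ h1, Abelian.monoLift_comp i _ h1⟩
  refine ⟨r, ?_⟩
  rw [← cancel_mono i, Category.assoc, hr, Preadditive.comp_sub, Category.comp_id,
    cokernel.condition_assoc, zero_comp, sub_zero, Category.id_comp]

lemma episSplit_of_monos (h : MonosSplit 𝒞) {M N : 𝒞} (p : M ⟶ N) [Epi p] : ∃ s : N ⟶ M, s ≫ p = 𝟙 N := by
  obtain ⟨r, hr⟩ := h _ _ (kernel.ι p) inferInstance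
  have h1 : kernel.ι p ≫ (𝟙 M - r ≫ kernel.ι p) = 0 := by
    rw [Preadditive.comp_sub, Category.comp_id, reassoc_of% hr, sub_self]
  refine ⟨Abelian.epiDesc p _ h1, ?_⟩
  rw [← cancel_epi p, ← Category.assoc, Abelian.comp_epiDesc, Preadditive.sub_comp, Category.id_comp,
    Category.assoc, kernel.condition, comp_zero, sub_zero, Category.comp_id]

lemma ratEqNum_of_split (h : MonosSplit 𝒞) : RatEqNum 𝒞 := by
  intro M z hz
  have hf : Abelian.factorThruImage z ≫ Abelian.image.ι z = z := Abelian.image.fac z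
  obtain ⟨r, hr⟩ := h _ _ (Abelian.image.ι z) inferInstance
  obtain ⟨s, hs⟩ := episSplit_of_monos h (Abelian.factorThruImage z)
  have h1 : Abelian.factorThruImage z ≫ s = 0 := by
    have h2 : z ≫ r ≫ s = (Abelian.factorThruImage z ≫ Abelian.image.ι z) ≫ r ≫ s := by rw [hf]
    rw [hz, Category.assoc, reassoc_of% hr] at h2
    exact h2.symm
  have h2 : 𝟙 (Abelian.image z) = 0 := by
    have : 𝟙 (Abelian.image z) = s ≫ (Abelian.factorThruImage z ≫ s) ≫ Abelian.factorThruImage z := by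
      rw [Category.assoc, hs, Category.comp_id, hs]
    rw [this, h1, zero_comp, comp_zero]
  have h3 : Abelian.factorThruImage z = 0 := by
    rw [← Category.comp_id (Abelian.factorThruImage z), h2, comp_zero]
  rw [h3, zero_comp] at hf
  exact hf.symm

lemma cyclesLift_of_split (h : MonosSplit 𝒞) : CyclesLift 𝒞 := by
  intro M N p hp z
  obtain ⟨s, hs⟩ := episSplit_of_monos h p
  exact ⟨z ≫ s, by rw [Category.assoc, hs, Category.comp_id]⟩

end abel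

end Pool.Agent.Run7.h312.AB
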