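import Mathlib

/-!
# Rigid tensor categories like the category of Chow motives: definitions
-/

set_option autoImplicit false

open CategoryTheory CategoryTheory.Limits MonoidalCategory

universe v u

namespace Pool.Agent.Run7.h312.AB

/-- A preadditive category is abelian: every morphism has a kernel and a cokernel, and the canonical
map from the coimage to the image is an isomorphism. (Finite direct sums are part of the setting.) -/
def IsAbelian (𝒞 : Type u) [Category.{v} 𝒞] [Preadditive 𝒞] : Prop :=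
  ∃ (_ : HasKernels 𝒞) (_ : HasCokernels 𝒞), ∀ (M N : 𝒞) (f : M ⟶ N),
    IsIso (Abelian.coimageImageComparison f)

variable {𝒞 : Type u} [Category.{v} 𝒞] [Preadditive 𝒞] [MonoidalCategory 𝒞]

/-- Numerically trivial morphisms `f : M ⟶ N`: all scalars `a ≫ (T ◁ f) ≫ b` made of `f` and of
morphisms `a : 𝟙 ⟶ T ⊗ M`, `b : T ⊗ N ⟶ 𝟙` vanish. (In a rigid category this says that the traces
of all `g ∘ f`, `g : N ⟶ M`, vanish.) For a cycle, that is, a morphism `z : 𝟙 ⟶ M`, this says that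
`z ≫ g = 0` for all `g : M ⟶ 𝟙`. -/
def NumTrivial {M N : 𝒞} (f : M ⟶ N) : Prop :=
  ∀ (T : 𝒞) (a : 𝟙_ 𝒞 ⟶ T ⊗ M) (b : T ⊗ N ⟶ 𝟙_ 𝒞), a ≫ (T ◁ f) ≫ b = 0

variable (𝒞) in
/-- Rational and numerical equivalence coincide: a cycle `z : 𝟙 ⟶ M` all of whose intersection
numbers `z ≫ g` with the cycles `g : M ⟶ 𝟙` are zero is zero. -/
def RatEqNum : Prop :=
  ∀ (M : 𝒞) (z : 𝟙_ 𝒞 ⟶ M), (∀ g : M ⟶ 𝟙_ 𝒞, z ≫ g = 0) → z = 0

/-- The tensor powers of an object. -/
def pw (M : 𝒞) : ℕ → 𝒞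
  | 0 => 𝟙_ 𝒞
  | n + 1 => pw M n ⊗ M

/-- The tensor powers of a morphism. For a cycle `z : 𝟙 ⟶ M` this is the exterior power `z × ⋯ × z`. -/
def pwHom {M N : 𝒞} (f : M ⟶ N) : ∀ n : ℕ, pw M n ⟶ pw N n
  | 0 => 𝟙 (𝟙_ 𝒞)
  | n + 1 => pwHom f n ⊗ₘ f

/-- A morphism is smash-nilpotent if one of its tensor powers vanishes. -/
def SmashNilpotent {M N : 𝒞} (f : M ⟶ N) : Prop := ∃ n : ℕ, 1 ≤ n ∧ pwHom f n = 0

variable (𝒞) in
/-- Voevodsky's conjecture: numerically trivial cycles are smash-nilpotent. -/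
def Voevodsky : Prop :=
  ∀ (M : 𝒞) (z : 𝟙_ 𝒞 ⟶ M), (∀ g : M ⟶ 𝟙_ 𝒞, z ≫ g = 0) → SmashNilpotent z

variable (𝒞) in
/-- The theorem of Jannsen: modulo numerically trivial morphisms the category is semisimple, that is,
for every morphism `f` there is a `g` with `f g f = f` modulo numerically trivial morphisms. -/
def SemisimpleModNum : Prop :=
  ∀ (M N : 𝒞) (f : M ⟶ N), ∃ g : N ⟶ M, NumTrivial (f ≫ g ≫ f - f)

variable (𝒞) in
/-- A Frobenius: an endomorphism `fr M` of each object `M`, natural in `M`, which is the identity of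
the unit object. -/
structure Frobenius where
  fr : ∀ M : 𝒞, M ⟶ M
  natural : ∀ {M N : 𝒞} (f : M ⟶ N), fr M ≫ f = f ≫ fr N
  unit : fr (𝟙_ 𝒞) = 𝟙 (𝟙_ 𝒞)

/-- The conjecture of Tate, in the form: if the Frobenius of `M` is unipotent then the numerical
motive of `M` is a direct sum of unit motives: the identity of `M` is numerically equivalent to a sum
of morphisms `M ⟶ 𝟙 ⟶ M`. (The numerical motive is semisimple by a theorem of Jannsen, and the
Frobenius is central, so a unipotent Frobenius is the identity of the numerical motive; and the simple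
numerical motives over a finite field are determined by their Frobenius if the conjecture of Tate is
true and homological and numerical equivalence coincide.) -/
def TateConjecture (F : Frobenius 𝒞) : Prop :=
  ∀ M : 𝒞, (∃ N : ℕ, (End.of (F.fr M) - 1) ^ N = 0) →
    ∃ (n : ℕ) (b : Fin n → (M ⟶ 𝟙_ 𝒞)) (a : Fin n → (𝟙_ 𝒞 ⟶ M)),
      NumTrivial (𝟙 M - ∑ j, b j ≫ a j)

/-- There is no phantom with unipotent Frobenius: an object whose identity is numerically trivial and
on which the Frobenius is unipotent is zero. -/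
def NoUnipotentPhantom (F : Frobenius 𝒞) : Prop :=
  ∀ M : 𝒞, NumTrivial (𝟙 M) → (∃ N : ℕ, (End.of (F.fr M) - 1) ^ N = 0) → IsZero M

variable (𝒞) in
/-- Every monomorphism splits. -/
def MonosSplit : Prop := ∀ (M N : 𝒞) (i : M ⟶ N), Mono i → ∃ r : N ⟶ M, i ≫ r = 𝟙 M

variable (𝒞) in
/-- Cycles lift along epimorphisms: for every epimorphism `M ⟶ N` the map `CH(M) → CH(N)` is
surjective. -/
def CyclesLift : Prop := ∀ (M N : 𝒞) (p : M ⟶ N), Epi p → ∀ z : 𝟙_ 𝒞 ⟶ N, ∃ w : 𝟙_ 𝒞 ⟶ M, w ≫ p = z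

end Pool.Agent.Run7.h312.AB
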