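import Pool.Agent.Run7.h312.AB.Tate

/-!
# Abelian categories of motives: the main theorems
-/

set_option autoImplicit false
set_option linter.unusedSectionVars false

open CategoryTheory CategoryTheory.Limits MonoidalCategory

universe v u

namespace Pool.Agent.Run7.h312.AB

lemma exists_abelian {𝒞 : Type u} [Category.{v} 𝒞] [P : Preadditive 𝒞] [HasFiniteBiproducts 𝒞]
    (h : IsAbelian 𝒞) : ∃ A : Abelian 𝒞, A.toPreadditive = P := by
  obtain ⟨hk, hc, hi⟩ := h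
  have hfp : HasFiniteProducts 𝒞 := inferInstance
  have : ∀ {X Y : 𝒞} (f : X ⟶ Y), IsIso (Abelian.coimageImageComparison f) := fun f => hi _ _ f
  exact ⟨Abelian.ofCoimageImageComparisonIsIso, rfl⟩

variable {𝒞 : Type u} [Category.{v} 𝒞] [P : Preadditive 𝒞] [MonoidalCategory 𝒞]
  [MonoidalPreadditive 𝒞] [BraidedCategory 𝒞] [RigidCategory 𝒞] [HasFiniteBiproducts 𝒞]
  [IsIdempotentComplete 𝒞]

theorem fin_smash (h : IsAbelian 𝒞) {M N : 𝒞} {f : M ⟶ N} (hf : SmashNilpotent f) : f = 0 := by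
  obtain ⟨A, hA⟩ := exists_abelian h
  subst hA
  exact smash_zero hf

theorem fin_voevodsky (h : IsAbelian 𝒞) (hV : Voevodsky 𝒞) : RatEqNum 𝒞 :=
  fun M z hz => fin_smash h (hV M z hz)

theorem fin_split (h : IsAbelian 𝒞) (hV : MonosSplit 𝒞) : RatEqNum 𝒞 := by
  obtain ⟨A, hA⟩ := exists_abelian h
  subst hA
  exact ratEqNum_of_split hV

theorem fin_lift (h : IsAbelian 𝒞) (hV : CyclesLift 𝒞) : RatEqNum 𝒞 := by
  obtain ⟨A, hA⟩ := exists_abelian h
  subst hA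
  exact ratEqNum_of_split (monosSplit_of_lift hV)

theorem fin_tate (h : IsAbelian 𝒞) {F : Frobenius 𝒞} (hT : TateConjecture F)
    (hP : NoUnipotentPhantom F) : RatEqNum 𝒞 := by
  obtain ⟨A, hA⟩ := exists_abelian h
  subst hA
  exact tate_main hT hP

theorem fin_abelian (hJ : SemisimpleModNum 𝒞) (h : RatEqNum 𝒞) : IsAbelian 𝒞 :=
  isAbelian_of_regular fun _ _ f => h.regular hJ f

omit [BraidedCategory 𝒞] [RigidCategory 𝒞] [HasFiniteBiproducts 𝒞] [IsIdempotentComplete 𝒞] in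
theorem vo_of_rat (h : RatEqNum 𝒞) : Voevodsky 𝒞 := by
  intro M z hz
  refine ⟨1, le_rfl, ?_⟩
  show 𝟙 (𝟙_ 𝒞) ⊗ₘ z = 0
  rw [h M z hz]
  simp

theorem fin_monosSplit (hJ : SemisimpleModNum 𝒞) (h : RatEqNum 𝒞) : MonosSplit 𝒞 := by
  intro M N i hi
  obtain ⟨g, hg⟩ := h.regular hJ i
  exact ⟨g, by rw [← cancel_mono i, Category.assoc, hg, Category.id_comp]⟩

theorem fin_cyclesLift (hJ : SemisimpleModNum 𝒞) (h : RatEqNum 𝒞) : CyclesLift 𝒞 := by
  intro M N p hp z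
  obtain ⟨g, hg⟩ := h.regular hJ p
  refine ⟨z ≫ g, ?_⟩
  have : g ≫ p = 𝟙 N := by rw [← cancel_epi p, hg, Category.comp_id]
  rw [Category.assoc, this, Category.comp_id]

theorem fin_phantom (h : RatEqNum 𝒞) (F : Frobenius 𝒞) : NoUnipotentPhantom F := by
  intro M hM _
  rw [IsZero.iff_id_eq_zero]
  exact h.hom hM

end Pool.Agent.Run7.h312.AB
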