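import Pool.Agent.Run7.h312.AB.Defs

/-!
# Numerically trivial morphisms, and the case in which rational and numerical equivalence coincide
-/

set_option autoImplicit false
set_option linter.unusedSectionVars false

open CategoryTheory CategoryTheory.Limits MonoidalCategory

universe v u

namespace Pool.Agent.Run7.h312.AB

variable {𝒞 : Type u} [Category.{v} 𝒞] [Preadditive 𝒞] [MonoidalCategory 𝒞]

section basic

variable [MonoidalPreadditive 𝒞] {L M N : 𝒞}

lemma NumTrivial.comp_left {f : M ⟶ N} (h : NumTrivial f) (g : L ⟶ M) : NumTrivial (g ≫ f) := by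
  intro T a b
  have := h T (a ≫ T ◁ g) b
  simpa using this

lemma NumTrivial.comp_right {f : L ⟶ M} (h : NumTrivial f) (g : M ⟶ N) : NumTrivial (f ≫ g) := by
  intro T a b
  have := h T a (T ◁ g ≫ b)
  simpa using this

lemma NumTrivial.add {f g : M ⟶ N} (hf : NumTrivial f) (hg : NumTrivial g) :
    NumTrivial (f + g) := by
  intro T a b
  rw [MonoidalPreadditive.whiskerLeft_add, Preadditive.add_comp, Preadditive.comp_add, hf, hg,
    add_zero]

lemma numTrivial_zero : NumTrivial (0 : M ⟶ N) := by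
  intro T a b
  simp

lemma NumTrivial.neg {f : M ⟶ N} (hf : NumTrivial f) : NumTrivial (-f) := by
  have h := hf.comp_right (-𝟙 N)
  simpa using h

lemma NumTrivial.sub {f g : M ⟶ N} (hf : NumTrivial f) (hg : NumTrivial g) :
    NumTrivial (f - g) := by
  rw [sub_eq_add_neg]
  exact hf.add hg.neg

lemma NumTrivial.sum {n : ℕ} {f : Fin n → (M ⟶ N)} (h : ∀ i, NumTrivial (f i)) :
    NumTrivial (∑ i, f i) := by
  refine Finset.sum_induction _ NumTrivial (fun _ _ => NumTrivial.add) numTrivial_zero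
    fun i _ => h i

/-- Two morphisms are numerically equivalent. -/
def NE (f g : M ⟶ N) : Prop := NumTrivial (f - g)

lemma NE.refl (f : M ⟶ N) : NE f f := by
  unfold NE
  rw [sub_self]
  exact numTrivial_zero

lemma NE.symm {f g : M ⟶ N} (h : NE f g) : NE g f := by
  unfold NE at *
  rw [← neg_sub]
  exact h.neg

lemma NE.trans {f g k : M ⟶ N} (h : NE f g) (h' : NE g k) : NE f k := by
  unfold NE at *
  rw [← sub_add_sub_cancel f g k]
  exact h.add h'

lemma NE.comp {f f' : L ⟶ M} {g g' : M ⟶ N} (h : NE f f') (h' : NE g g') :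
    NE (f ≫ g) (f' ≫ g') := by
  unfold NE at *
  have e : f ≫ g - f' ≫ g' = (f - f') ≫ g + f' ≫ (g - g') := by
    simp only [Preadditive.sub_comp, Preadditive.comp_sub]
    abel
  rw [e]
  exact (h.comp_right g).add (h'.comp_left f')

lemma unit_zero {f : 𝟙_ 𝒞 ⟶ 𝟙_ 𝒞} (h : NumTrivial f) : f = 0 := by
  have h1 := h (𝟙_ 𝒞) (λ_ _).inv (λ_ _).hom
  rw [← leftUnitor_inv_naturality_assoc] at h1
  simpa using h1

lemma unit_eq {f g : 𝟙_ 𝒞 ⟶ 𝟙_ 𝒞} (h : NE f g) : f = g := sub_eq_zero.1 (unit_zero h)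

lemma num_of_cycle {z : 𝟙_ 𝒞 ⟶ N} (h : ∀ g : N ⟶ 𝟙_ 𝒞, z ≫ g = 0) : NumTrivial z := by
  intro T a b
  have h1 := h ((λ_ N).inv ≫ (a ≫ (ρ_ T).hom) ▷ N ≫ b)
  have e : a ≫ T ◁ z ≫ b = z ≫ (λ_ N).inv ≫ (a ≫ (ρ_ T).hom) ▷ N ≫ b := by
    have e1 : a = (λ_ (𝟙_ 𝒞)).inv ≫ (a ≫ (ρ_ T).hom) ▷ 𝟙_ 𝒞 := by
      rw [comp_whiskerRight]
      have := rightUnitor_inv_naturality a
      have h2 : (ρ_ T).hom ▷ 𝟙_ 𝒞 = (ρ_ (T ⊗ 𝟙_ 𝒞)).hom := by
        rw [← cancel_mono (ρ_ T).hom, rightUnitor_naturality]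
      rw [h2, unitors_inv_equal, ← rightUnitor_inv_naturality_assoc]
      simp
    conv_lhs => rw [e1]
    simp only [Category.assoc]
    rw [← whisker_exchange_assoc, leftUnitor_inv_naturality_assoc]
  rw [e]
  exact h1

end basic

section rat

variable [MonoidalPreadditive 𝒞] [RigidCategory 𝒞] {L M N : 𝒞}

/-- If rational and numerical equivalence coincide for cycles then all numerically trivial morphisms
are zero. -/
lemma RatEqNum.hom (hR : RatEqNum 𝒞) {f : M ⟶ N} (h : NumTrivial f) : f = 0 := by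
  have h1 : η_ (ᘁM) M ≫ ((ᘁM : 𝒞) ◁ f) = 0 := by
    refine hR _ _ fun g => ?_
    have := h (ᘁM : 𝒞) (η_ (ᘁM) M) g
    simpa using this
  have h2 := tensorLeftHomEquiv_symm_coevaluation_comp_whiskerLeft (Y := (ᘁM : 𝒞)) (Y' := M) f
  rw [h1] at h2
  have h3 : (tensorLeftHomEquiv (𝟙_ 𝒞) (ᘁM : 𝒞) M N).symm 0 = 0 := by
    simp [tensorLeftHomEquiv]
  rw [h3] at h2
  rw [← cancel_epi (ρ_ M).hom, ← h2, comp_zero]

lemma RatEqNum.regular (hR : RatEqNum 𝒞) (hJ : SemisimpleModNum 𝒞) (f : M ⟶ N) :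
    ∃ g : N ⟶ M, f ≫ g ≫ f = f := by
  obtain ⟨g, hg⟩ := hJ M N f
  exact ⟨g, sub_eq_zero.1 (hR.hom hg)⟩

end rat

end Pool.Agent.Run7.h312.AB
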