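import Pool.Agent.Run7.h312.AB.Ab

/-!
# Abelian categories of motives, the conjecture of Tate and phantoms
-/

set_option autoImplicit false
set_option linter.unusedSectionVars false

open CategoryTheory CategoryTheory.Limits MonoidalCategory

universe v u

namespace Pool.Agent.Run7.h312.AB

variable {𝒞 : Type u} [Category.{v} 𝒞] [Abelian 𝒞] [MonoidalCategory 𝒞] [MonoidalPreadditive 𝒞]

/-- the Frobenius minus the identity, as an element of the ring of endomorphisms -/
def xx (F : Frobenius 𝒞) (M : 𝒞) : End M := End.of (F.fr M) - 1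

variable {F : Frobenius 𝒞} {K L M N : 𝒞}

lemma xx_nat (f : M ⟶ N) : (xx F M : M ⟶ M) ≫ f = f ≫ (xx F N : N ⟶ N) := by
  show (F.fr M - 𝟙 M) ≫ f = f ≫ (F.fr N - 𝟙 N)
  rw [Preadditive.sub_comp, Preadditive.comp_sub, F.natural, Category.id_comp, Category.comp_id]

lemma xx_pow_nat (f : M ⟶ N) (n : ℕ) :
    ((xx F M ^ n : End M) : M ⟶ M) ≫ f = f ≫ ((xx F N ^ n : End N) : N ⟶ N) := by
  induction n with
  | zero =>
    show 𝟙 M ≫ f = f ≫ 𝟙 N
    rw [Category.id_comp, Category.comp_id]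
  | succ n ih =>
    rw [pow_succ', pow_succ']
    show (((xx F M ^ n : End M) : M ⟶ M) ≫ (xx F M : M ⟶ M)) ≫ f =
      f ≫ ((xx F N ^ n : End N) : N ⟶ N) ≫ (xx F N : N ⟶ N)
    rw [Category.assoc, xx_nat, ← Category.assoc, ih, Category.assoc]

/-- An object with unipotent Frobenius is a direct summand of a sum of unit objects. -/
lemma unit_of_unip (hT : TateConjecture F) (hP : NoUnipotentPhantom F)
    {n : ℕ} (h : xx F K ^ n = 0) :
    (∃ (m : ℕ) (b : Fin m → (K ⟶ 𝟙_ 𝒞)) (a : Fin m → (𝟙_ 𝒞 ⟶ K)), 𝟙 K = ∑ j, b j ≫ a j) ∧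
      F.fr K = 𝟙 K := by
  have hex : ∃ (m : ℕ) (b : Fin m → (K ⟶ 𝟙_ 𝒞)) (a : Fin m → (𝟙_ 𝒞 ⟶ K)),
      𝟙 K = ∑ j, b j ≫ a j := by
    obtain ⟨m, b, a, hba⟩ := hT K ⟨n, h⟩
    set e0 : K ⟶ K := ∑ j, b j ≫ a j with he0
    have kill : ∀ x : K ⟶ K, NumTrivial x → e0 ≫ x ≫ e0 = 0 := by
      intro x hx
      rw [he0, Preadditive.sum_comp]
      refine Finset.sum_eq_zero fun i _ => ?_
      rw [Category.assoc, Preadditive.comp_sum, Preadditive.comp_sum, Preadditive.comp_sum]
      refine Finset.sum_eq_zero fun j _ => ?_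
      have h1 : a i ≫ x ≫ b j = 0 := unit_zero ((hx.comp_right (b j)).comp_left (a i))
      have h2 : b i ≫ a i ≫ x ≫ b j ≫ a j = b i ≫ (a i ≫ x ≫ b j) ≫ a j := by
        simp only [Category.assoc]
      rw [h2, h1, zero_comp, comp_zero]
    have h3 : e0 ≫ e0 ≫ e0 = e0 ≫ e0 := by
      have := kill (𝟙 K - e0) hba
      rw [Preadditive.sub_comp, Preadditive.comp_sub, Category.id_comp, sub_eq_zero] at this
      exact this.symm
    have he : (𝟙 K - e0 ≫ e0) ≫ (𝟙 K - e0 ≫ e0) = 𝟙 K - e0 ≫ e0 := by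
      simp only [Preadditive.sub_comp, Preadditive.comp_sub, Category.id_comp, Category.comp_id,
        Category.assoc]
      rw [h3, h3]
      abel
    obtain ⟨Y, i, r, h1, h2⟩ := IsIdempotentComplete.idempotents_split K _ he
    have hnum : NumTrivial (𝟙 K - e0 ≫ e0) := by
      have : 𝟙 K - e0 ≫ e0 = (𝟙 K - e0) + (𝟙 K - e0) ≫ e0 := by
        rw [Preadditive.sub_comp, Category.id_comp]
        abel
      rw [this]
      exact NumTrivial.add hba (NumTrivial.comp_right hba e0)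
    have hY : IsZero Y := by
      refine hP Y ?_ ⟨n, ?_⟩
      · have : 𝟙 Y = i ≫ (𝟙 K - e0 ≫ e0) ≫ r := by
          rw [← h2, Category.assoc, h1, Category.comp_id, h1]
        rw [this]
        exact (hnum.comp_right r).comp_left i
      · have h4 : ((xx F Y ^ n : End Y) : Y ⟶ Y) ≫ i = 0 := by
          rw [xx_pow_nat, h]
          exact comp_zero
        have h5 : ((xx F Y ^ n : End Y) : Y ⟶ Y) = 0 := by
          rw [← Category.comp_id ((xx F Y ^ n : End Y) : Y ⟶ Y), ← h1, reassoc_of% h4, zero_comp]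
        exact h5
    have h6 : 𝟙 K - e0 ≫ e0 = 0 := by rw [← h2, hY.eq_zero_of_tgt r, zero_comp]
    refine ⟨m, fun j => e0 ≫ b j, a, ?_⟩
    rw [sub_eq_zero] at h6
    rw [h6]
    conv_lhs => rw [he0]
    rw [← he0, Preadditive.comp_sum]
    simp only [Category.assoc]
  refine ⟨hex, ?_⟩
  obtain ⟨m, b, a, h1⟩ := hex
  have h2 : ∀ j, (b j ≫ a j) ≫ F.fr K = b j ≫ a j := by
    intro j
    rw [Category.assoc, ← F.natural, F.unit, Category.id_comp]
  rw [← Category.id_comp (F.fr K), h1, Preadditive.sum_comp]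
  exact Finset.sum_congr rfl fun j _ => h2 j

/-- **Given the conjecture of Tate, in an abelian category of motives without unipotent phantoms
rational and numerical equivalence coincide.** -/
theorem tate_main (hT : TateConjecture F) (hP : NoUnipotentPhantom F) :
    RatEqNum 𝒞 := by
  intro M z hz
  set φ : M ⟶ M := F.fr M - 𝟙 M with hφ
  have hφx : (xx F M : M ⟶ M) = φ := rfl
  have hzφ : z ≫ φ = 0 := by
    rw [hφ, Preadditive.comp_sub, ← F.natural, F.unit, Category.id_comp, Category.comp_id, sub_self]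
  -- the kernel of `φ ^ 2` is the kernel of `φ`
  have h2 : kernel.ι (φ ≫ φ) ≫ φ = 0 := by
    have h3 : xx F (kernel (φ ≫ φ)) ^ 2 = 0 := by
      have h4 : ((xx F (kernel (φ ≫ φ)) ^ 2 : End _) : kernel (φ ≫ φ) ⟶ kernel (φ ≫ φ)) ≫
          kernel.ι (φ ≫ φ) = 0 := by
        rw [xx_pow_nat, pow_two]
        exact kernel.condition (φ ≫ φ)
      rw [← cancel_mono (kernel.ι (φ ≫ φ)), zero_comp] at *
      exact h4
    have h5 := (unit_of_unip hT hP h3).2
    have h6 : (xx F (kernel (φ ≫ φ)) : kernel (φ ≫ φ) ⟶ kernel (φ ≫ φ)) = 0 := by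
      show F.fr _ - 𝟙 _ = 0
      rw [h5, sub_self]
    calc kernel.ι (φ ≫ φ) ≫ φ = (xx F (kernel (φ ≫ φ)) : kernel (φ ≫ φ) ⟶ kernel (φ ≫ φ)) ≫
          kernel.ι (φ ≫ φ) := (xx_nat (kernel.ι (φ ≫ φ))).symm
      _ = 0 := by rw [h6, zero_comp]
  -- the cokernel of `φ`
  have h3 : z ≫ cokernel.π φ = 0 := by
    have h4 : xx F (cokernel φ) ^ 1 = 0 := by
      rw [pow_one]
      have h5 : cokernel.π φ ≫ (xx F (cokernel φ) : cokernel φ ⟶ cokernel φ) = 0 := by
        rw [← xx_nat, hφx, cokernel.condition]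
      have h6 : (xx F (cokernel φ) : cokernel φ ⟶ cokernel φ) = 0 := by
        rw [← cancel_epi (cokernel.π φ), h5, comp_zero]
      exact h6
    obtain ⟨m, b, a, h5⟩ := (unit_of_unip hT hP h4).1
    rw [← Category.comp_id (cokernel.π φ), h5, Preadditive.comp_sum, Preadditive.comp_sum]
    refine Finset.sum_eq_zero fun j _ => ?_
    have h6 := hz (cokernel.π φ ≫ b j)
    have h7 : z ≫ cokernel.π φ ≫ b j ≫ a j = (z ≫ cokernel.π φ ≫ b j) ≫ a j := by
      simp only [Category.assoc]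
    rw [h7, h6, zero_comp]
  -- so `z` factors through the image of `φ`
  obtain ⟨w, hw⟩ : ∃ w : 𝟙_ 𝒞 ⟶ Abelian.image φ, w ≫ Abelian.image.ι φ = z :=
    ⟨kernel.lift (cokernel.π φ) z h3, kernel.lift_ι _ _ _⟩
  have hf : Abelian.factorThruImage φ ≫ Abelian.image.ι φ = φ := Abelian.image.fac φ
  have hcond : pullback.fst w (Abelian.factorThruImage φ) ≫ w =
      pullback.snd w (Abelian.factorThruImage φ) ≫ Abelian.factorThruImage φ := pullback.condition
  have h4 : pullback.snd w (Abelian.factorThruImage φ) ≫ φ =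
      pullback.fst w (Abelian.factorThruImage φ) ≫ z := by
    rw [← hw, ← Category.assoc, hcond, Category.assoc, hf]
  have h5 : pullback.snd w (Abelian.factorThruImage φ) ≫ φ ≫ φ = 0 := by
    rw [← Category.assoc, h4, Category.assoc, hzφ, comp_zero]
  have h6 : pullback.snd w (Abelian.factorThruImage φ) ≫ φ = 0 := by
    have h7 := kernel.lift_ι (φ ≫ φ) (pullback.snd w (Abelian.factorThruImage φ)) h5
    rw [← h7, Category.assoc, h2, comp_zero]
  rw [h4] at h6
  have h8 : Epi (pullback.fst w (Abelian.factorThruImage φ)) := inferInstance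
  rw [← cancel_epi (pullback.fst w (Abelian.factorThruImage φ)), h6, comp_zero]

end Pool.Agent.Run7.h312.AB
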